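import Pool.Agent.K1H2.BI.Stm

set_option autoImplicit false

namespace Pool.Agent.K1H99.BI

open Pool.Agent.K1H2.BI

/-- **Piece FRZ.** -/
theorem t_FRZ : S_FRZ := by
  intro Fr ins n k
  induction k with
  | zero => exact ⟨0, le_rfl, rfl, fun h => absurd h (lt_irrefl 0), fun i hi => absurd hi (Nat.not_lt_zero i)⟩
  | succ k ih =>
    obtain ⟨j, hj, h1, h2, h3⟩ := ih
    by_cases h : X ins (n + j) ∈ Fr
    · refine ⟨j, by omega, ?_, fun _ => h, h3⟩
      have h4 : (frz Fr ins n k).1 ∈ Fr := by rw [h1]; exact h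
      rw [frz, if_pos h4, h1]
    · have hjk : j = k := by
        by_contra hne
        exact h (h2 (lt_of_le_of_ne hj hne))
      subst hjk
      refine ⟨j + 1, le_rfl, ?_, fun h => absurd h (lt_irrefl _), ?_⟩
      · have h4 : (frz Fr ins n j).1 ∉ Fr := by rw [h1]; exact h
        rw [frz, if_neg h4, h1]
        rfl
      · intro i hi
        rcases Nat.lt_succ_iff_lt_or_eq.1 hi with h5 | h5
        · exact h3 i h5
        · rw [h5]
          exact h

/-- **Piece TRAJ.** -/
theorem t_TRAJ (hpath : S_PATH) : S_TRAJ := by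
  intro ins
  have hinv : ∀ n, Inv (X ins n) := by
    intro n
    induction n with
    | zero =>
      refine ⟨by simp [X], by simp [X], by simp [X], by simp [X]⟩
    | succ n ih => exact (hpath _ (ins n) ih).2.1
  have hmono : ∀ n k, n ≤ k → (X ins n).A ⊆ (X ins k).A ∧ (X ins n).t ≤ (X ins k).t := by
    intro n k hk
    induction k, hk using Nat.le_induction with
    | base => exact ⟨subset_rfl, le_rfl⟩
    | succ k _ ih =>
      obtain ⟨-, -, h3, -, h5, -⟩ := hpath _ (ins k) (hinv k)
      refine ⟨ih.1.trans h3, ih.2.trans ?_⟩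
      change (X ins k).t ≤ (event (X ins k) (ins k)).t
      rcases h5 with h5 | h5
      · exact h5.ge
      · rw [h5.1]
        exact Nat.le_succ _
  refine ⟨hinv, ?_, hmono, ?_, ?_⟩
  · intro n
    induction n with
    | zero => simp [X, S]
    | succ n ih =>
      obtain ⟨-, -, -, h4, -⟩ := hpath _ (ins n) (hinv n)
      rw [Finset.sum_range_succ, ← ih]
      change S (event (X ins n) (ins n)) = _
      rw [h4]
      ring
  · intro n
    obtain ⟨-, -, -, -, h5, -⟩ := hpath _ (ins n) (hinv n)
    change (event (X ins n) (ins n)).t ≤ _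
    rcases h5 with h5 | h5
    · rw [h5]
      exact Nat.le_succ _
    · rw [h5.1]
  · intro t n ht htn
    have hne : {n | t ≤ (X ins n).t}.Nonempty := ⟨n, htn⟩
    have hT : T ins t = sInf {n | t ≤ (X ins n).t} := rfl
    have h1 : t ≤ (X ins (T ins t)).t := Nat.sInf_mem hne
    have h2 : T ins t ≤ n := Nat.sInf_le htn
    have h3 : ∀ k < T ins t, (X ins k).t < t := by
      intro k hk
      have := Nat.notMem_of_lt_sInf hk
      exact not_le.1 this
    refine ⟨h2, ?_, ?_, (hmono _ _ h2).1, h3⟩
    · rcases Nat.eq_zero_or_pos (T ins t) with h0 | h0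
      · rw [h0] at h1 ⊢
        have : (X ins 0).t = 1 := rfl
        omega
      · obtain ⟨m, hm⟩ := Nat.exists_eq_succ_of_ne_zero h0.ne'
        have h4 := h3 m (by omega)
        obtain ⟨-, -, -, -, h5, -⟩ := hpath _ (ins m) (hinv m)
        have h6 : X ins (T ins t) = event (X ins m) (ins m) := by rw [hm]; rfl
        rw [h6] at h1 ⊢
        rcases h5 with h5 | h5
        · omega
        · omega
    · rcases Nat.eq_zero_or_pos (T ins t) with h0 | h0
      · rw [h0]
        rfl
      · obtain ⟨m, hm⟩ := Nat.exists_eq_succ_of_ne_zero h0.ne'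
        have h4 := h3 m (by omega)
        obtain ⟨-, -, -, -, h5, -⟩ := hpath _ (ins m) (hinv m)
        have h6 : X ins (T ins t) = event (X ins m) (ins m) := by rw [hm]; rfl
        rw [h6] at h1 ⊢
        rcases h5 with h5 | h5
        · omega
        · exact h5.2

end Pool.Agent.K1H99.BI
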