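import Pool.Agent.K1H53.BI.Plan

set_option autoImplicit false

namespace Pool.Agent.K1H99.BI

open Pool.Agent.K1H53.BI

theorem hasSum_one (ν : PMF ℕ) : HasSum (fun k : ℕ => (ν k).toReal) 1 := by
  have h := ENNReal.hasSum_toReal (f := fun k : ℕ => ν k) (by rw [ν.tsum_coe]; simp)
  rw [← ENNReal.tsum_toReal_eq (fun k => ν.apply_ne_top k), ν.tsum_coe] at h
  simpa using h

theorem bound {lam : ℝ} (hl : 0 < lam) (j : ℕ) (hj : j ≤ 4) (k : ℕ) :
    |((k : ℝ) - 1) ^ j| ≤ (24 / lam ^ 4 * Real.exp lam) * Real.exp (lam * k) := by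
  have hk : (0 : ℝ) ≤ k := by positivity
  have h1 : |((k : ℝ) - 1) ^ j| ≤ ((k : ℝ) + 1) ^ 4 := by
    rw [abs_pow]
    have h2 : |(k : ℝ) - 1| ≤ k + 1 := by
      rw [abs_le]
      constructor <;> linarith
    calc |(k : ℝ) - 1| ^ j ≤ ((k : ℝ) + 1) ^ j := pow_le_pow_left₀ (abs_nonneg _) h2 j
      _ ≤ ((k : ℝ) + 1) ^ 4 := pow_le_pow_right₀ (by linarith) hj
  refine h1.trans ?_
  have h3 := Real.pow_div_factorial_le_exp (lam * (k + 1)) (by positivity) 4
  have h4 : (Nat.factorial 4 : ℝ) = 24 := by norm_num [Nat.factorial]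
  rw [h4, mul_pow, div_le_iff₀ (by norm_num)] at h3
  have h5 : Real.exp (lam * (k + 1)) = Real.exp lam * Real.exp (lam * k) := by
    rw [← Real.exp_add]
    congr 1
    ring
  rw [h5] at h3
  have hl4 : 0 < lam ^ 4 := by positivity
  have : ((k : ℝ) + 1) ^ 4 ≤ (Real.exp lam * Real.exp (lam * k) * 24) / lam ^ 4 := by
    rw [le_div_iff₀ hl4]
    linarith
  refine this.trans (le_of_eq ?_)
  ring

theorem summ {ν : PMF ℕ} (h : CondH ν) (j : ℕ) (hj : j ≤ 4) :
    Summable fun k : ℕ => (ν k).toReal * ((k : ℝ) - 1) ^ j := by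
  obtain ⟨lam, hl, hs⟩ := h.expo
  refine Summable.of_norm_bounded (hs.mul_left (24 / lam ^ 4 * Real.exp lam)) fun k => ?_
  rw [norm_mul, Real.norm_eq_abs, Real.norm_eq_abs, abs_of_nonneg ENNReal.toReal_nonneg]
  have h1 := mul_le_mul_of_nonneg_left (bound hl j hj k) (ENNReal.toReal_nonneg (a := ν k))
  refine h1.trans (le_of_eq ?_)
  ring

/-- **Piece OFF.** -/
theorem t_OFF : S_OFF := by
  intro ν h
  set s2 := ∑' k : ℕ, (ν k).toReal * ((k : ℝ) - 1) ^ 2 with hs2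
  set s3 := ∑' k : ℕ, (ν k).toReal * ((k : ℝ) - 1) ^ 3 with hs3
  set s4 := ∑' k : ℕ, (ν k).toReal * ((k : ℝ) - 1) ^ 4 with hs4
  refine ⟨s2, max (max 1 s2) (max |s3| s4), ⟨h.var, ?_, ?_, summ h 4 le_rfl, ?_,
    (summ h 2 (by norm_num)).hasSum, ?_, ?_⟩⟩
  · exact le_max_of_le_left (le_max_right _ _)
  · exact le_max_of_le_left (le_max_left _ _)
  · have := h.mean.sub (hasSum_one ν)
    rw [sub_self] at this
    refine this.congr_fun ?_
    intro k
    ring
  · exact le_max_of_le_right (le_max_left _ _)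
  · exact le_max_of_le_right (le_max_right _ _)

end Pool.Agent.K1H99.BI
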