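import Pool.Agent.K1H53.BI.Plan2

set_option autoImplicit false

namespace Pool.Agent.K1H99.BI

open Pool.Agent.K1H53.BI
open scoped ENNReal
open Finset

/-- all terms of the average are equal -/
theorem step_const {ν : PMF ℕ} {s : St} (h : s.L ≠ []) (f : St → ℝ≥0∞) (c : ℝ≥0∞)
    (hc : ∀ i < s.L.length, Ex (top ν (s.L.getD i 0) ⟨s.A, s.L.eraseIdx i, s.m⟩) f = c) :
    Ex (step ν s) f = c := by
  unfold step
  rw [dif_neg h, Ex_bind]
  rw [Ex_congr (h := fun _ => c)]
  · exact Ex_const _ _
  · intro i hi
    have : i ∈ range s.L.length := by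
      by_contra hn
      exact hi (PMF.uniformOfFinset_apply_of_notMem _ hn)
    exact hc i (mem_range.1 this)

theorem ex_zero {α : Type} (p : PMF α) (f : α → ℝ≥0∞) (h : ∀ a, p a ≠ 0 → f a = 0) :
    Ex p f = 0 := by
  rw [Ex_congr p h, Ex_const]

theorem qq_zero_of {ν : PMF ℕ} {G : Finset V → Prop} {s : St} (h : ¬ Fin' s) :
    qq ν G 0 s = 0 := by
  simp only [qq, ind]
  rw [if_neg]
  exact fun h' => h h'.1

theorem qq_succ {ν : PMF ℕ} {G : Finset V → Prop} {s : St} (h : ¬ Fin' s) (n : ℕ) :
    qq ν G (n + 1) s = Ex (step ν s) (qq ν G n) := by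
  simp only [qq]
  rw [if_neg h]

/-- **Piece QI.** -/
theorem t_QI : S_QI := by
  intro hcom hqs ν G
  obtain ⟨hc1, hc2⟩ := hcom
  have hS : ∀ n, Sym (qq ν G n) := hqs ν G
  -- part (a)
  have ha : ∀ (n : ℕ) (s : St) (x : V), qq ν G (n + 1) (addp x s) = Ex (top ν x s) (qq ν G n) := by
    intro n
    induction n with
    | zero =>
      intro s x
      rw [qq_succ (by rintro ⟨h, -⟩; exact absurd h (List.cons_ne_nil _ _))]
      refine step_const (List.cons_ne_nil _ _) _ _ ?_
      intro i hi
      cases i with
      | zero => rfl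
      | succ i =>
        have hi' : i < s.L.length := Nat.lt_of_succ_lt_succ hi
        have hpos : 0 < s.L.length := by omega
        rw [ex_zero, ex_zero]
        · intro a h0
          refine qq_zero_of ?_
          rintro ⟨h3, -⟩
          have := (hc2 ν _ _ _ h0).2.1
          rw [h3] at this
          simp only [List.length_nil] at this
          omega
        · intro a h0
          refine qq_zero_of ?_
          rintro ⟨h3, -⟩
          have := (hc2 ν _ _ _ h0).2.1
          rw [h3] at this
          simp [addp] at this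
    | succ n ih =>
      intro s x
      rw [qq_succ (by rintro ⟨h, -⟩; exact absurd h (List.cons_ne_nil _ _))]
      refine step_const (List.cons_ne_nil _ _) _ _ ?_
      intro i hi
      cases i with
      | zero => rfl
      | succ i =>
        have hi' : i < s.L.length := Nat.lt_of_succ_lt_succ hi
        set xi := s.L.getD i 0 with hxi
        set si : St := ⟨s.A, s.L.eraseIdx i, s.m⟩ with hsi
        have e0 : Eqv (addp xi si) s := by
          refine ⟨rfl, ?_, rfl⟩
          change (xi :: s.L.eraseIdx i).Perm s.L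
          have hx : xi = s.L[i] := by rw [hxi, List.getD_eq_getElem _ _ hi']
          rw [hx]
          exact List.getElem_cons_eraseIdx_perm hi'
        change Ex (top ν xi (addp x si)) (qq ν G (n + 1)) = _
        obtain ⟨-, -, c3, -⟩ := hc1 ν (qq ν G (n + 1)) (hS (n + 1))
        obtain ⟨c1', -, -, -⟩ := hc1 ν (qq ν G (n + 1)) (hS (n + 1))
        obtain ⟨-, c2, -, -⟩ := hc1 ν (qq ν G n) (hS n)
        rw [c3 xi x si]
        simp only [ih]
        rw [c2 xi x si]
        simp only [← ih]
        rw [← c3 x xi si]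
        exact c1' x _ _ e0
  refine fun n s => ⟨fun x => ha n s x, ?_⟩
  -- part (b)
  induction n generalizing s with
  | zero =>
    intro hm
    rcases hL : s.L with _ | ⟨x, l⟩
    · rw [qq_succ (by rintro ⟨-, h⟩; omega)]
      unfold step
      rw [dif_pos hL, if_neg (by omega), Ex_pure]
      unfold lau
      rw [hL]
    · have hs : s = addp x ⟨s.A, l, s.m⟩ := by
        cases s
        simp only at hL
        subst hL
        rfl
      rw [qq_zero_of (s := lau s) (by rintro ⟨h, -⟩; exact absurd h (List.cons_ne_nil _ _))]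
      rw [hs, ha 0]
      refine ex_zero _ _ fun a h0 => qq_zero_of ?_
      rintro ⟨-, h3⟩
      have := (hc2 ν _ _ _ h0).1
      simp only at this
      omega
  | succ n ih =>
    intro hm
    rcases hL : s.L with _ | ⟨x, l⟩
    · rw [qq_succ (by rintro ⟨-, h⟩; omega)]
      unfold step
      rw [dif_pos hL, if_neg (by omega), Ex_pure]
      unfold lau
      rw [hL]
    · have hs : s = addp x ⟨s.A, l, s.m⟩ := by
        cases s
        simp only at hL
        subst hL
        rfl
      set s1 : St := ⟨s.A, l, s.m⟩ with hs1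
      obtain ⟨-, -, -, c4⟩ := hc1 ν (qq ν G n) (hS n)
      have h1 : qq ν G (n + 1 + 1) s = Ex (top ν x s1) (qq ν G (n + 1)) := by
        rw [hs, ha (n + 1)]
      rw [h1]
      rw [Ex_congr (h := fun s' => qq ν G n (lau s'))]
      · rw [← c4 x s1, ← ha n]
        refine hS (n + 1) _ _ ⟨rfl, ?_, rfl⟩
        change (x :: 0 :: l).Perm (0 :: s.L)
        rw [hL]
        exact List.Perm.swap _ _ _
      · intro a h0
        refine ih a ?_
        rw [(hc2 ν _ _ _ h0).1]
        exact hm

end Pool.Agent.K1H99.BI
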