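import Pool.Agent.K1H53.BI.Main2

/-!
# Branching internal DLA in three dimensions: the deviations are at least of order `√r`

Under (H), in dimension three, the larger of the inner and outer deviations at time `t` is at least
`η √r(t)` with probability at least `1 - ε`; each of the two deviations is at least `c √r(t)` with
probability at least `c`, at every large time, and almost surely infinitely often.
-/

set_option autoImplicit false

open scoped ENNReal
open MeasureTheory Filter

namespace Pool.Agent.K1H99.BI.Res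

/-- Sites of the lattice. -/
abbrev Site := Fin 3 → ℤ

/-- The six unit vectors. -/
def unitVec (e : Fin 3 × Bool) : Site := Pi.single e.1 (if e.2 then 1 else -1)

/-- An aggregate together with the positions of the moving particles. -/
structure Conf where
  /-- the aggregate -/
  agg : Finset Site
  /-- the moving particles -/
  moving : List Site

/-- A particle arrives at `y`: outside the aggregate it stops and `y` joins the aggregate, in the
aggregate it keeps moving. -/
def arrive (s : Conf) (y : Site) : Conf :=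
  if y ∈ s.agg then ⟨s.agg, y :: s.moving⟩ else ⟨insert y s.agg, s.moving⟩

/-- `k` particles at `x` make, one after the other, independent steps of simple random walk. -/
noncomputable def steps (x : Site) : ℕ → Conf → PMF Conf
  | 0, s => PMF.pure s
  | k + 1, s =>
    (PMF.uniformOfFintype (Fin 3 × Bool)).bind fun e => steps x k (arrive s (x + unitVec e))

/-- The next exponential clock rings: by symmetry it belongs to a uniformly chosen moving particle,
which is replaced by a `ν`-distributed number of particles at its site, and these make one step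
each. Nothing happens if no particle moves. -/
noncomputable def ring (ν : PMF ℕ) (s : Conf) : PMF Conf :=
  if h : s.moving = [] then PMF.pure s
  else (PMF.uniformOfFinset (Finset.range s.moving.length)
      ⟨0, Finset.mem_range.2 (List.length_pos_iff.2 h)⟩).bind fun i =>
    ν.bind fun k => steps (s.moving.getD i 0) k ⟨s.agg, s.moving.eraseIdx i⟩

/-- The law after `n` rings. -/
noncomputable def rings (ν : PMF ℕ) (s : Conf) : ℕ → PMF Conf
  | 0 => PMF.pure s
  | n + 1 => (rings ν s n).bind (ring ν)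

/-- The probability that the launch of one particle at the origin turns the aggregate `A` into `B`:
the limit (supremum) over `n` of the probability that after `n` rings no particle moves and the
aggregate is `B`. -/
noncomputable def launch (ν : PMF ℕ) (A B : Finset Site) : ℝ≥0∞ := ⨆ n, rings ν ⟨A, [0]⟩ n ⟨B, []⟩

/-- `X t`, `t ≥ 1`, is branching internal DLA: it starts with `{0}`, and given the past the next
aggregate is obtained by one launch. -/
structure IsBIDLA (ν : PMF ℕ) {Ω : Type} [MeasurableSpace Ω] (P : Measure Ω)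
    (X : ℕ → Ω → Finset Site) : Prop where
  prob : IsProbabilityMeasure P
  meas : ∀ (t : ℕ) (B : Finset Site), MeasurableSet {ω | X t ω = B}
  start : P {ω | X 1 ω = {0}} = 1
  markov : ∀ (t : ℕ) (a : ℕ → Finset Site), 1 ≤ t →
    P {ω | ∀ i, 1 ≤ i → i ≤ t + 1 → X i ω = a i} =
      P {ω | ∀ i, 1 ≤ i → i ≤ t → X i ω = a i} * launch ν (a t) (a (t + 1))

/-- Condition (H) on the offspring law: mean one, positive variance, an exponential moment. -/
structure ConditionH (ν : PMF ℕ) : Prop where
  mean : HasSum (fun k : ℕ => (ν k).toReal * (k : ℝ)) 1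
  var : 0 < ∑' k : ℕ, (ν k).toReal * ((k : ℝ) - 1) ^ 2
  expo : ∃ lam : ℝ, 0 < lam ∧ Summable fun k : ℕ => (ν k).toReal * Real.exp (lam * k)

/-- Euclidean norm. -/
noncomputable def norm2 (x : Site) : ℝ := Real.sqrt (∑ i, (x i : ℝ) ^ 2)

/-- Radius of the Euclidean ball of volume `t`. -/
noncomputable def radius (t : ℕ) : ℝ := (3 * t / (4 * Real.pi)) ^ ((1 : ℝ) / 3)

/-- Inner deviation: the infimum of the `δ ≥ 0` such that the ball of radius `radius t - δ` is
contained in `A`. -/
noncomputable def innerDev (t : ℕ) (A : Finset Site) : ℝ :=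
  sInf {δ : ℝ | 0 ≤ δ ∧ ∀ z : Site, norm2 z < radius t - δ → z ∈ A}

/-- Outer deviation: the infimum of the `δ ≥ 0` such that `A` is contained in the ball of radius
`radius t + δ`. -/
noncomputable def outerDev (t : ℕ) (A : Finset Site) : ℝ :=
  sInf {δ : ℝ | 0 ≤ δ ∧ ∀ z ∈ A, norm2 z < radius t + δ}

/-! ### Proofs -/

section bridge

open Pool.Agent.K1H53.BI (V St put children step run Phi ind Ex Fin' lau nrm nsq rad devI devO
  CondH tr prob Ex_bind Ex_pure)

/-- embedding of the configurations in the states with launch counter zero -/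
def emb (c : Conf) : St := ⟨c.agg, c.moving, 0⟩

theorem put_emb (c : Conf) (y : Site) : put (emb c) y = emb (arrive c y) := by
  unfold put arrive emb
  split_ifs <;> rfl

theorem children_emb (x : Site) (k : ℕ) : ∀ c : Conf,
    children x k (emb c) = (steps x k c).map emb := by
  induction k with
  | zero =>
    intro c
    show PMF.pure (emb c) = (PMF.pure c).map emb
    rw [PMF.pure_map]
  | succ k ih =>
    intro c
    show ((PMF.uniformOfFintype (Fin 3 × Bool)).bind fun e =>
        children x k (put (emb c) (x + unitVec e))) =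
      ((PMF.uniformOfFintype (Fin 3 × Bool)).bind fun e =>
        steps x k (arrive c (x + unitVec e))).map emb
    rw [PMF.map_bind]
    congr 1
    funext e
    rw [put_emb, ih]

theorem step_emb (ν : PMF ℕ) (c : Conf) : step ν (emb c) = (ring ν c).map emb := by
  unfold step ring
  by_cases h : c.moving = []
  · have h' : (emb c).L = [] := h
    rw [dif_pos h, dif_pos h', PMF.pure_map]
    rfl
  · have h' : ¬ (emb c).L = [] := h
    rw [dif_neg h, dif_neg h', PMF.map_bind]
    show (PMF.uniformOfFinset (Finset.range c.moving.length) _).bind _ = _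
    congr 1
    funext i
    rw [PMF.map_bind]
    congr 1
    funext k
    exact children_emb _ k ⟨c.agg, c.moving.eraseIdx i⟩

theorem run_emb (ν : PMF ℕ) (c : Conf) (n : ℕ) :
    run (step ν) (emb c) n = (rings ν c n).map emb := by
  induction n with
  | zero =>
    show PMF.pure (emb c) = (PMF.pure c).map emb
    rw [PMF.pure_map]
  | succ n ih =>
    show (run (step ν) (emb c) n).bind (step ν) = ((rings ν c n).bind (ring ν)).map emb
    rw [ih, PMF.map_bind, PMF.bind_map]
    congr 1
    funext c'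
    exact step_emb ν c'

theorem Ex_map {α β : Type} (p : PMF α) (f : α → β) (g : β → ℝ≥0∞) :
    Ex (p.map f) g = Ex p (fun a => g (f a)) := by
  show Ex (p.bind (PMF.pure ∘ f)) g = _
  rw [Ex_bind]
  congr 1
  funext a
  exact Ex_pure _ _

theorem launch_eq (ν : PMF ℕ) (A B : Finset Site) : launch ν A B = tr ν A B := by
  have h1 : tr ν A B = Phi ν (fun C => C = B) (emb ⟨A, [0]⟩) :=
    (Pool.Agent.K1H53.BI.c_abel ν (fun C => C = B)).2.2 ⟨A, [], 1⟩ Nat.one_pos
  rw [h1]
  unfold launch Phi
  refine iSup_congr fun n => ?_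
  rw [run_emb, Ex_map]
  unfold Ex
  rw [tsum_eq_single (⟨B, []⟩ : Conf)]
  · have : ind (fun s : St => Fin' s ∧ s.A = B) (emb ⟨B, []⟩) = 1 := by
      unfold ind
      rw [if_pos]
      exact ⟨⟨rfl, rfl⟩, rfl⟩
    show _ = _ * ind (fun s : St => Fin' s ∧ s.A = B) (emb ⟨B, []⟩)
    rw [this, mul_one]
  · intro c hc
    have : ind (fun s : St => Fin' s ∧ s.A = B) (emb c) = 0 := by
      unfold ind
      rw [if_neg]
      rintro ⟨⟨h2, _⟩, h3⟩
      apply hc
      obtain ⟨a, l⟩ := c
      have h2' : l = [] := h2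
      have h3' : a = B := h3
      rw [h2', h3']
    show _ * ind (fun s : St => Fin' s ∧ s.A = B) (emb c) = 0
    rw [this, mul_zero]

theorem toB {ν : PMF ℕ} {Ω : Type} [MeasurableSpace Ω] {P : Measure Ω}
    {X : ℕ → Ω → Finset Site} (h : IsBIDLA ν P X) : Pool.Agent.K1H53.BI.IsBIDLA ν P X where
  prob := h.prob
  meas := h.meas
  start := h.start
  markov t a ht := by rw [← launch_eq]; exact h.markov t a ht

theorem ofB {ν : PMF ℕ} {Ω : Type} [MeasurableSpace Ω] {P : Measure Ω}
    {X : ℕ → Ω → Finset Site} (h : Pool.Agent.K1H53.BI.IsBIDLA ν P X) : IsBIDLA ν P X where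
  prob := h.prob
  meas := h.meas
  start := h.start
  markov t a ht := by rw [launch_eq]; exact h.markov t a ht

theorem norm2_eq (x : Site) : norm2 x = nrm x := by
  unfold norm2 nrm nsq
  congr 1
  push_cast
  refine Finset.sum_congr rfl fun i _ => ?_
  rw [Nat.cast_natAbs, Int.cast_abs, sq_abs]

theorem inner_eq (t : ℕ) (A : Finset Site) : innerDev t A = devI t A := by
  unfold innerDev devI
  simp only [norm2_eq]
  rfl

theorem outer_eq (t : ℕ) (A : Finset Site) : outerDev t A = devO t A := by
  unfold outerDev devO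
  simp only [norm2_eq]
  rfl

/-- the law of the aggregate at time `t` -/
theorem prob_eq {ν : PMF ℕ} {Ω : Type} [MeasurableSpace Ω] {P : Measure Ω}
    {X : ℕ → Ω → Finset Site} (h : IsBIDLA ν P X) (G : Finset Site → Prop) {t : ℕ} (ht : 1 ≤ t) :
    P {ω | G (X t ω)} = Phi ν G ⟨{0}, [], t - 1⟩ := by
  have h1 := Pool.Agent.K1H53.BI.c_cyl ν Ω _ P X (toB h) 1 t (fun _ => {0}) G le_rfl ht
  have := h.prob
  have hae : ∀ᵐ ω ∂P, X 1 ω = {0} := by
    rw [ae_iff]
    exact (prob_compl_eq_zero_iff (h.meas 1 {0})).2 h.start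
  have e1 : P {ω | ∀ i, 1 ≤ i → i ≤ 1 → X i ω = {0}} = 1 := by
    rw [← h.start]
    congr 1
    ext ω
    refine ⟨fun hω => hω 1 le_rfl le_rfl, fun hω i hi hi' => ?_⟩
    have : i = 1 := le_antisymm hi' hi
    rw [this]
    exact hω
  have e2 : P {ω | (∀ i, 1 ≤ i → i ≤ 1 → X i ω = {0}) ∧ G (X t ω)} = P {ω | G (X t ω)} := by
    refine measure_congr (Filter.eventuallyEq_set.2 (hae.mono fun ω hω => ?_))
    refine ⟨fun hω' => hω'.2, fun hω' => ⟨fun i hi hi' => ?_, hω'⟩⟩
    have : i = 1 := le_antisymm hi' hi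
    rw [this]
    exact hω
  rw [← e2, h1, e1, one_mul]

end bridge

theorem result (ν : PMF ℕ) (hν : ConditionH ν) :
    (∃ (Ω : Type) (_ : MeasurableSpace Ω) (P : Measure Ω) (X : ℕ → Ω → Finset Site),
      IsBIDLA ν P X) ∧
    ∀ (Ω : Type) (_ : MeasurableSpace Ω) (P : Measure Ω) (X : ℕ → Ω → Finset Site),
      IsBIDLA ν P X →
      (∀ ε : ℝ, 0 < ε → ∃ (η : ℝ) (t₀ : ℕ), 0 < η ∧ ∀ t : ℕ, t₀ ≤ t →
        ENNReal.ofReal (1 - ε) ≤ P {ω | η * Real.sqrt (radius t) ≤
          max (innerDev t (X t ω)) (outerDev t (X t ω))}) ∧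
      ∃ c : ℝ, 0 < c ∧
        (∃ t₀ : ℕ, ∀ t : ℕ, t₀ ≤ t →
          ENNReal.ofReal c ≤ P {ω | c * Real.sqrt (radius t) ≤ innerDev t (X t ω)} ∧
          ENNReal.ofReal c ≤ P {ω | c * Real.sqrt (radius t) ≤ outerDev t (X t ω)}) ∧
        ∀ᵐ ω ∂P, (∃ᶠ t in atTop, c * Real.sqrt (radius t) ≤ innerDev t (X t ω)) ∧
          (∃ᶠ t in atTop, c * Real.sqrt (radius t) ≤ outerDev t (X t ω)) := by
  have hc : Pool.Agent.K1H53.BI.CondH ν := ⟨hν.mean, hν.var, hν.expo⟩
  constructor
  · obtain ⟨Ω, m, P, X, hX⟩ := Pool.Agent.K1H53.BI.c_ex ν (Pool.Agent.K1H53.BI.phi_true ν hc)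
    exact ⟨Ω, m, P, X, ofB hX⟩
  intro Ω mΩ P X hX
  have hX' := toB hX
  constructor
  · intro ε hε
    obtain ⟨η, T₀, hη, hT⟩ := Pool.Agent.K1H53.BI.c_fin3 ν hc ε hε
    refine ⟨η, max T₀ 1, hη, fun t ht => ?_⟩
    have ht1 : 1 ≤ t := le_trans (le_max_right _ _) ht
    have h1 := hT t (le_trans (le_max_left _ _) ht)
    rw [Pool.Agent.K1H53.BI.prob_Phi, ← prob_eq hX _ ht1] at h1
    refine h1.trans (measure_mono fun ω hω => ?_)
    show _ ≤ max (innerDev t (X t ω)) (outerDev t (X t ω))
    rw [inner_eq, outer_eq]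
    exact le_max_iff.2 hω
  obtain ⟨c₁, hc₁, h1⟩ := Pool.Agent.K1H53.BI.c_finf ν hc
  obtain ⟨c₂, hc₂, h2⟩ := Pool.Agent.K1H53.BI.c_io ν hc
  have hs : ∀ t : ℕ, 0 ≤ Real.sqrt (radius t) := fun t => Real.sqrt_nonneg _
  refine ⟨min c₁ c₂, lt_min hc₁ hc₂, ?_, ?_⟩
  · obtain ⟨T₁, hT₁, hT⟩ := h1 {0} 1 (Finset.mem_singleton_self _)
    refine ⟨T₁, fun t ht => ?_⟩
    have ht1 : 1 ≤ t := hT₁.trans ht
    obtain ⟨h3, h4⟩ := hT t ht (Pool.Agent.K1H53.BI.phi_true ν hc _)
    rw [← prob_eq hX _ ht1] at h3 h4
    have hle : ENNReal.ofReal (min c₁ c₂) ≤ ENNReal.ofReal c₁ :=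
      ENNReal.ofReal_le_ofReal (min_le_left _ _)
    refine ⟨(hle.trans h4).trans (measure_mono fun ω hω => ?_),
      (hle.trans h3).trans (measure_mono fun ω hω => ?_)⟩
    · show _ ≤ innerDev t (X t ω)
      rw [inner_eq]
      exact (mul_le_mul_of_nonneg_right (min_le_left _ _) (hs t)).trans hω
    · show _ ≤ outerDev t (X t ω)
      rw [outer_eq]
      exact (mul_le_mul_of_nonneg_right (min_le_left _ _) (hs t)).trans hω
  · filter_upwards [h2 Ω mΩ P X hX'] with ω hω
    refine ⟨hω.2.mono fun t ht => ?_, hω.1.mono fun t ht => ?_⟩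
    · rw [inner_eq]
      exact (mul_le_mul_of_nonneg_right (min_le_right _ _) (hs t)).trans ht
    · rw [outer_eq]
      exact (mul_le_mul_of_nonneg_right (min_le_right _ _) (hs t)).trans ht

end Pool.Agent.K1H99.BI.Res
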